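import Mathlib

/-!
A 4-uniform hypergraph which can be coloured (on its pairs) with six colours without
monochromatic edge, and in which every such colouring contains a special pattern for any two
colours. The construction glues critical gadgets whose existence follows from Ramsey's theorem.
-/

set_option autoImplicit false

namespace Pool.Agent.W_MP_721462_co

open Finset

/-! ## Colourings as symmetric functions -/

/-- A set is monochromatic. -/
def Mono {V K : Type} (κ : V → V → K) (E : Finset V) : Prop :=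
  ∃ k, ∀ u ∈ E, ∀ v ∈ E, u ≠ v → κ u v = k

/-- Symmetric colourings without monochromatic edges. -/
def Good {V K : Type} (κ : V → V → K) (H : Finset (Finset V)) : Prop :=
  (∀ u v, κ u v = κ v u) ∧ ∀ E ∈ H, ¬ Mono κ E

/-! ## Ramsey -/

lemma pre_ramsey {K : Type} [Fintype K] [DecidableEq K] (m : ℕ) :
    ∃ N : ℕ, ∀ (V : Type) [DecidableEq V] (κ : V → V → K) (S : Finset V), N ≤ S.card →
      ∃ l : List (V × K), l.length = m ∧ (∀ a ∈ l, a.1 ∈ S) ∧
        l.Pairwise (fun a b => a.1 ≠ b.1 ∧ κ a.1 b.1 = a.2) := by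
  induction m with
  | zero => exact ⟨0, fun V _ κ S _ => ⟨[], by simp⟩⟩
  | succ m ih =>
    obtain ⟨N, hN⟩ := ih
    refine ⟨Fintype.card K * N + 1, fun V _ κ S hS => ?_⟩
    have hne : S.Nonempty := by
      rw [← Finset.card_pos]; omega
    obtain ⟨v, hv⟩ := hne
    have hcard : Fintype.card K * N ≤ (S.erase v).card := by
      rw [Finset.card_erase_of_mem hv]; omega
    -- pigeonhole
    rcases isEmpty_or_nonempty K with hK | hK
    · exact (hK.false (κ v v)).elim
    obtain ⟨k, -, hk⟩ := Finset.exists_le_card_fiber_of_mul_le_card_of_maps_to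
      (s := S.erase v) (t := (univ : Finset K)) (f := fun w => κ v w) (n := N)
      (fun a _ => Finset.mem_univ _) ⟨Classical.arbitrary K, Finset.mem_univ _⟩
      (by simpa using hcard)
    obtain ⟨l, hl1, hl2, hl3⟩ := hN V κ _ hk
    refine ⟨(v, k) :: l, by simp [hl1], ?_, ?_⟩
    · intro a ha
      rcases List.mem_cons.1 ha with rfl | ha
      · exact hv
      · have := hl2 a ha
        simp at this
        exact this.1.2
    · rw [List.pairwise_cons]
      refine ⟨fun b hb => ?_, hl3⟩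
      have := hl2 b hb
      simp at this
      exact ⟨fun h => this.1.1 h.symm, this.2⟩

lemma ramsey {K : Type} [Fintype K] [DecidableEq K] :
    ∃ N : ℕ, ∀ κ : Fin N → Fin N → K, (∀ u v, κ u v = κ v u) →
      ∃ E : Finset (Fin N), E.card = 4 ∧ Mono κ E := by
  obtain ⟨N, hN⟩ := pre_ramsey (K := K) (3 * Fintype.card K + 1)
  refine ⟨N, fun κ hκ => ?_⟩
  obtain ⟨l, hl1, -, hl3⟩ := hN (Fin N) κ univ (by simp)
  have hnd : l.Nodup := by
    refine hl3.imp ?_
    intro a b hab h
    exact hab.1 (by rw [h])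
  have hfst : ∀ a ∈ l, ∀ b ∈ l, a ≠ b → a.1 ≠ b.1 := by
    intro a ha b hb hab
    have hs : Std.Symm (fun a b : Fin N × K => a.1 ≠ b.1) := ⟨fun a b h => h.symm⟩
    exact (List.Pairwise.imp (fun {a b} h => h.1) hl3 : l.Pairwise (fun a b => a.1 ≠ b.1)).forall
      ha hb hab
  have hcol : ∀ a ∈ l, ∀ b ∈ l, a ≠ b → (κ a.1 b.1 = a.2 ∨ κ a.1 b.1 = b.2) := by
    intro a ha b hb hab
    have hs : Std.Symm (fun a b : Fin N × K => κ a.1 b.1 = a.2 ∨ κ a.1 b.1 = b.2) := by
      constructor
      intro a b h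
      rcases h with h | h
      · right; rw [hκ]; exact h
      · left; rw [hκ]; exact h
    exact (List.Pairwise.imp (fun {a b} h => Or.inl h.2) hl3 :
      l.Pairwise (fun a b => κ a.1 b.1 = a.2 ∨ κ a.1 b.1 = b.2)).forall ha hb hab
  obtain ⟨k, -, hk⟩ := Finset.exists_lt_card_fiber_of_mul_lt_card_of_maps_to
      (s := l.toFinset) (t := (univ : Finset K)) (f := fun w => w.2) (n := 3)
      (fun a _ => Finset.mem_univ _)
      (by rw [List.toFinset_card_of_nodup hnd, hl1]; simp; omega)
  obtain ⟨T, hT1, hT2⟩ := Finset.exists_subset_card_eq (Nat.succ_le_of_lt hk)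
  refine ⟨T.image Prod.fst, ?_, k, ?_⟩
  · rw [Finset.card_image_of_injOn, hT2]
    intro a ha b hb hab
    by_contra h
    have ha' := hT1 ha
    have hb' := hT1 hb
    simp at ha' hb'
    exact hfst a ha'.1 b hb'.1 h hab
  · intro u hu v hv huv
    obtain ⟨a, ha, rfl⟩ := Finset.mem_image.1 hu
    obtain ⟨b, hb, rfl⟩ := Finset.mem_image.1 hv
    have ha' := hT1 ha
    have hb' := hT1 hb
    simp at ha' hb'
    have hab : a ≠ b := fun h => huv (by rw [h])
    rcases hcol a ha'.1 b hb'.1 hab with h | h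
    · rw [h, ha'.2]
    · rw [h, hb'.2]

/-! ## The critical gadget -/

lemma gadget {K : Type} [Fintype K] [DecidableEq K] [Nonempty K] :
    ∃ (N : ℕ) (Q : Finset (Finset (Fin N))) (E0 : Finset (Fin N)),
      (∀ E ∈ Q, E.card = 4) ∧ E0.card = 4 ∧ (∃ κ : Fin N → Fin N → K, Good κ Q) ∧
      ∀ κ : Fin N → Fin N → K, Good κ Q → Mono κ E0 := by
  obtain ⟨N, hN⟩ := ramsey (K := K)
  by_contra hcon
  push Not at hcon
  have key : ∀ Q : Finset (Finset (Fin N)), Q ⊆ (univ : Finset (Fin N)).powersetCard 4 →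
      ∃ κ : Fin N → Fin N → K, Good κ Q := by
    intro Q
    induction Q using Finset.induction_on with
    | empty =>
      intro _
      exact ⟨fun _ _ => Classical.arbitrary K, fun _ _ => rfl, by simp⟩
    | insert E Q hE ih =>
      intro hQ
      have hQ' : Q ⊆ (univ : Finset (Fin N)).powersetCard 4 :=
        fun F hF => hQ (Finset.mem_insert_of_mem hF)
      have hE4 : E.card = 4 := (Finset.mem_powersetCard.1 (hQ (Finset.mem_insert_self _ _))).2
      obtain ⟨κ, hκ1, hκ2⟩ := hcon N Q E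
        (fun F hF => (Finset.mem_powersetCard.1 (hQ' hF)).2) hE4 (ih hQ')
      refine ⟨κ, hκ1.1, ?_⟩
      intro F hF
      rcases Finset.mem_insert.1 hF with rfl | hF
      · exact hκ2
      · exact hκ1.2 F hF
  obtain ⟨κ, hκ⟩ := key _ (Finset.Subset.refl _)
  obtain ⟨E, hE, hM⟩ := hN κ hκ.1
  exact hκ.2 E (Finset.mem_powersetCard.2 ⟨Finset.subset_univ _, hE⟩) hM

/-! ## Gluing gadgets -/

lemma glue {K V0 M : Type} [Fintype K] [DecidableEq K] [Nonempty K] [Fintype V0] [DecidableEq V0]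
    [Fintype M] [DecidableEq M]
    (κ0 : V0 → V0 → K) (H0 : Finset (Finset V0)) (hH0 : ∀ E ∈ H0, E.card = 4)
    (hκ0 : Good κ0 H0) (e : M → Fin 4 → V0) (he : ∀ m, Function.Injective (e m))
    (k : M → K) (hk : ∀ m i j, i ≠ j → κ0 (e m i) (e m j) = k m) :
    ∃ (V : Type) (_ : Fintype V) (_ : DecidableEq V) (ι : V0 → V) (_ : Function.Injective ι)
      (H : Finset (Finset V)), (∀ E ∈ H, E.card = 4) ∧ (∀ E ∈ H0, E.image ι ∈ H) ∧
      (∃ κ : V → V → K, Good κ H) ∧
      ∀ κ : V → V → K, Good κ H → ∀ m, ∃ c, ∀ i j, i ≠ j → κ (ι (e m i)) (ι (e m j)) = c := by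
  obtain ⟨N, Q, E0, hQ4, hE04, ⟨q, hq⟩, hforce⟩ := gadget (K := K)
  -- coordinates on `E0`
  obtain ⟨ε⟩ : Nonempty ({x // x ∈ E0} ≃ Fin 4) := by
    refine ⟨Fintype.equivFinOfCardEq ?_⟩
    simpa using hE04
  -- colour on E0
  obtain ⟨k0, hk0⟩ := hforce q hq
  -- permuted colourings
  have hqm : ∀ m, ∃ q' : Fin N → Fin N → K, Good q' Q ∧ ∀ u ∈ E0, ∀ v ∈ E0, u ≠ v → q' u v = k m := by
    intro m
    refine ⟨fun u v => Equiv.swap k0 (k m) (q u v), ⟨fun u v => by simp only [hq.1 u v], ?_⟩, ?_⟩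
    · intro E hE ⟨c, hc⟩
      refine hq.2 E hE ⟨Equiv.swap k0 (k m) c, fun u hu v hv huv => ?_⟩
      have := hc u hu v hv huv
      rw [← this]; simp
    · intro u hu v hv huv
      simp only [hk0 u hu v hv huv, Equiv.swap_apply_left]
  choose q' hq'1 hq'2 using hqm
  let V := V0 ⊕ (M × Fin N)
  let φ : M → Fin N → V := fun m x =>
    if h : x ∈ E0 then Sum.inl (e m (ε ⟨x, h⟩)) else Sum.inr (m, x)
  have hφin : ∀ m x (h : x ∈ E0), φ m x = Sum.inl (e m (ε ⟨x, h⟩)) := fun m x h => by
    simp [φ, h]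
  have hφout : ∀ m x, x ∉ E0 → φ m x = Sum.inr (m, x) := fun m x h => by
    simp [φ, h]
  have hφinj : ∀ m, Function.Injective (φ m) := by
    intro m x y hxy
    by_cases hx : x ∈ E0 <;> by_cases hy : y ∈ E0
    · rw [hφin m x hx, hφin m y hy] at hxy
      have := ε.injective (he m (Sum.inl_injective hxy))
      simpa using this
    · rw [hφin m x hx, hφout m y hy] at hxy
      cases hxy
    · rw [hφout m x hx, hφin m y hy] at hxy
      cases hxy
    · rw [hφout m x hx, hφout m y hy] at hxy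
      have := Sum.inr_injective hxy
      simpa using this
  let ψ : M → V0 → Fin N := fun m a =>
    if h : ∃ i, e m i = a then (ε.symm h.choose).1 else
      (ε.symm 0).1
  have hψ : ∀ m i, ψ m (e m i) = (ε.symm i).1 := by
    intro m i
    have h : ∃ i', e m i' = e m i := ⟨i, rfl⟩
    have : h.choose = i := he m h.choose_spec
    simp only [ψ, h, dif_pos, this]
  let κ : V → V → K := fun u v =>
    match u, v with
    | Sum.inl a, Sum.inl b => κ0 a b
    | Sum.inl a, Sum.inr (m, y) => q' m (ψ m a) y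
    | Sum.inr (m, x), Sum.inl b => q' m x (ψ m b)
    | Sum.inr (m, x), Sum.inr (m', y) => if m = m' then q' m x y else Classical.arbitrary K
  have hκφ : ∀ m x y, x ≠ y → κ (φ m x) (φ m y) = q' m x y := by
    intro m x y hxy
    by_cases hx : x ∈ E0 <;> by_cases hy : y ∈ E0
    · rw [hφin m x hx, hφin m y hy, hq'2 m x hx y hy hxy]
      refine hk m _ _ ?_
      intro h
      exact hxy (by simpa using ε.injective h)
    · rw [hφin m x hx, hφout m y hy]
      simp [κ, hψ]
    · rw [hφout m x hx, hφin m y hy]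
      simp [κ, hψ]
    · rw [hφout m x hx, hφout m y hy]
      simp [κ]
  let H : Finset (Finset V) := H0.image (fun E => E.image Sum.inl) ∪
    (univ : Finset M).biUnion fun m => Q.image fun F => F.image (φ m)
  refine ⟨V, inferInstance, inferInstance, Sum.inl, Sum.inl_injective, H, ?_, ?_, ⟨κ, ?_, ?_⟩, ?_⟩
  · intro E hE
    rcases Finset.mem_union.1 hE with hE | hE
    · obtain ⟨F, hF, rfl⟩ := Finset.mem_image.1 hE
      rw [Finset.card_image_of_injective _ Sum.inl_injective, hH0 F hF]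
    · obtain ⟨m, -, hE⟩ := Finset.mem_biUnion.1 hE
      obtain ⟨F, hF, rfl⟩ := Finset.mem_image.1 hE
      rw [Finset.card_image_of_injective _ (hφinj m), hQ4 F hF]
  · intro E hE
    exact Finset.mem_union_left _ (Finset.mem_image_of_mem _ hE)
  · intro u v
    rcases u with a | ⟨m, x⟩ <;> rcases v with b | ⟨m', y⟩
    · exact hκ0.1 a b
    · exact (hq'1 m').1 _ _
    · exact (hq'1 m).1 _ _
    · by_cases hm : m = m'
      · subst hm
        simp [κ, (hq'1 m).1 x y]
      · simp [κ, hm, Ne.symm hm]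
  · intro E hE hM
    rcases Finset.mem_union.1 hE with hE | hE
    · obtain ⟨F, hF, rfl⟩ := Finset.mem_image.1 hE
      obtain ⟨c, hc⟩ := hM
      refine hκ0.2 F hF ⟨c, fun u hu v hv huv => ?_⟩
      exact hc (Sum.inl u) (Finset.mem_image_of_mem _ hu) (Sum.inl v) (Finset.mem_image_of_mem _ hv)
        (fun h => huv (Sum.inl_injective h))
    · obtain ⟨m, -, hE⟩ := Finset.mem_biUnion.1 hE
      obtain ⟨F, hF, rfl⟩ := Finset.mem_image.1 hE
      obtain ⟨c, hc⟩ := hM
      refine (hq'1 m).2 F hF ⟨c, fun x hx y hy hxy => ?_⟩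
      rw [← hκφ m x y hxy]
      exact hc (φ m x) (Finset.mem_image_of_mem _ hx) (φ m y) (Finset.mem_image_of_mem _ hy)
        (fun h => hxy (hφinj m h))
  · intro κ1 hκ1 m
    have hg : Good (fun x y => κ1 (φ m x) (φ m y)) Q := by
      refine ⟨fun x y => hκ1.1 _ _, ?_⟩
      intro F hF hM
      obtain ⟨c, hc⟩ := hM
      refine hκ1.2 (F.image (φ m)) ?_ ⟨c, ?_⟩
      · exact Finset.mem_union_right _ (Finset.mem_biUnion.2 ⟨m, Finset.mem_univ _,
          Finset.mem_image_of_mem _ hF⟩)
      · intro u hu v hv huv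
        obtain ⟨x, hx, rfl⟩ := Finset.mem_image.1 hu
        obtain ⟨y, hy, rfl⟩ := Finset.mem_image.1 hv
        exact hc x hx y hy (fun h => huv (by rw [h]))
    obtain ⟨c, hc⟩ := hforce _ hg
    refine ⟨c, fun i j hij => ?_⟩
    have h1 := hc (ε.symm i).1 (ε.symm i).2 (ε.symm j).1 (ε.symm j).2 (by
      intro h
      exact hij (ε.symm.injective (Subtype.ext h)))
    beta_reduce at h1
    rw [hφin m _ (ε.symm i).2, hφin m _ (ε.symm j).2] at h1
    simpa using h1

/-! ## The pattern hypergraph -/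

/-- The colour pattern on the pairs of a special edge. -/
def pat (i j : Fin 6) (a b : Fin 4) : Fin 6 := if a.val + b.val = 3 then j else i

lemma pat_comm (i j : Fin 6) (a b : Fin 4) : pat i j a b = pat i j b a := by
  unfold pat; rw [add_comm]

/-- A hypergraph which has a colouring with six colours without monochromatic edge, and in which
every such colouring contains, for any two colours, a special pattern. -/
lemma pattern : ∃ (V : Type) (_ : Fintype V) (_ : DecidableEq V) (H : Finset (Finset V)),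
    (∀ E ∈ H, E.card = 4) ∧ (∃ κ : V → V → Fin 6, Good κ H) ∧
    ∀ κ : V → V → Fin 6, Good κ H → ∀ c c' : Fin 6, c ≠ c' →
      ∃ z : Fin 4 → V, Function.Injective z ∧ (univ : Finset (Fin 4)).image z ∈ H ∧
        ∀ a b, a ≠ b → κ (z a) (z b) = if a.val + b.val = 3 then c' else c := by
  let V0 := (Fin 6 × Bool) ⊕ (Fin 6 × Fin 6 × Fin 4)
  let κ0 : V0 → V0 → Fin 6 := fun u v =>
    match u, v with
    | Sum.inl (k, _), Sum.inl (k', _) => min k k'
    | Sum.inl (k, _), Sum.inr (_, _, _) => k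
    | Sum.inr (_, _, _), Sum.inl (k, _) => k
    | Sum.inr (i, j, a), Sum.inr (i', j', a') => if i = i' ∧ j = j' then pat i j a a' else 0
  let zz : Fin 6 → Fin 6 → Fin 4 → V0 := fun i j a => Sum.inr (i, j, a)
  have hzz : ∀ i j, Function.Injective (zz i j) := by
    intro i j a b h
    have := Sum.inr_injective h
    simpa using this
  let H0 : Finset (Finset V0) :=
    ((univ : Finset (Fin 6 × Fin 6)).filter (fun p => p.1 ≠ p.2)).image
      (fun p => (univ : Finset (Fin 4)).image (zz p.1 p.2))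
  let M := Fin 6 × Fin 6 × {p : Fin 4 × Fin 4 // p.1 ≠ p.2}
  let e : M → Fin 4 → V0 := fun m =>
    ![Sum.inr (m.1, m.2.1, m.2.2.1.1), Sum.inr (m.1, m.2.1, m.2.2.1.2),
      Sum.inl (pat m.1 m.2.1 m.2.2.1.1 m.2.2.1.2, false),
      Sum.inl (pat m.1 m.2.1 m.2.2.1.1 m.2.2.1.2, true)]
  have he : ∀ m, Function.Injective (e m) := by
    rintro ⟨i, j, ⟨⟨a, b⟩, hab⟩⟩ x y hxy
    simp only at hab
    fin_cases x <;> fin_cases y <;> simp [e] at hxy ⊢
    · have h := Sum.inr_injective hxy
      simp at h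
      exact hab h
    · have h := Sum.inr_injective hxy
      simp at h
      exact hab h.symm
    · have h := Sum.inl_injective hxy
      simp at h
    · have h := Sum.inl_injective hxy
      simp at h
  obtain ⟨V, iF, iD, ι, hι, H, hH4, hH0, hgood, hforce⟩ := glue (M := M) κ0 H0 (by
      intro E hE
      obtain ⟨p, hp, rfl⟩ := Finset.mem_image.1 hE
      rw [Finset.card_image_of_injective _ (hzz _ _)]
      simp) (by
      refine ⟨?_, ?_⟩
      · rintro (⟨k, b⟩ | ⟨i, j, a⟩) (⟨k', b'⟩ | ⟨i', j', a'⟩)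
        · exact min_comm _ _
        · rfl
        · rfl
        · by_cases h : i = i' ∧ j = j'
          · obtain ⟨rfl, rfl⟩ := h
            simp [κ0, pat_comm i j a a']
          · have h' : ¬ (i' = i ∧ j' = j) := fun h' => h ⟨h'.1.symm, h'.2.symm⟩
            simp [κ0, h, h']
      · intro E hE hM
        obtain ⟨p, hp, rfl⟩ := Finset.mem_image.1 hE
        obtain ⟨c, hc⟩ := hM
        have h1 := hc (zz p.1 p.2 0) (Finset.mem_image_of_mem _ (Finset.mem_univ _))
          (zz p.1 p.2 1) (Finset.mem_image_of_mem _ (Finset.mem_univ _))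
          (fun h => absurd (hzz _ _ h) (by decide))
        have h2 := hc (zz p.1 p.2 0) (Finset.mem_image_of_mem _ (Finset.mem_univ _))
          (zz p.1 p.2 3) (Finset.mem_image_of_mem _ (Finset.mem_univ _))
          (fun h => absurd (hzz _ _ h) (by decide))
        simp [κ0, zz, pat] at h1 h2
        simp at hp
        exact hp (h1.trans h2.symm)) e he
      (fun m => pat m.1 m.2.1 m.2.2.1.1 m.2.2.1.2) (by
      rintro ⟨i, j, ⟨⟨a, b⟩, hab⟩⟩ x y hxy
      simp only at hab
      fin_cases x <;> fin_cases y <;> simp [e, κ0] at hxy ⊢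
      exact pat_comm _ _ _ _)
  refine ⟨V, iF, iD, H, hH4, hgood, ?_⟩
  intro κ hκ
  -- reference colours
  let χ : Fin 6 → Fin 6 := fun k => κ (ι (Sum.inl (k, false))) (ι (Sum.inl (k, true)))
  have hχ : ∀ i j a b, a ≠ b → κ (ι (zz i j a)) (ι (zz i j b)) = χ (pat i j a b) := by
    intro i j a b hab
    obtain ⟨c, hc⟩ := hforce κ hκ (i, j, ⟨(a, b), hab⟩)
    have h1 := hc 0 1 (by decide)
    have h2 := hc 2 3 (by decide)
    simp [e] at h1 h2
    simp only [χ, zz]
    rw [h1, h2]
  have hinj : Function.Injective χ := by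
    intro i j hij
    by_contra hne
    have hmem : (univ : Finset (Fin 4)).image (zz i j) ∈ H0 :=
      Finset.mem_image.2 ⟨(i, j), by simp [hne], rfl⟩
    refine hκ.2 _ (hH0 _ hmem) ⟨χ i, ?_⟩
    intro u hu v hv huv
    simp only [Finset.mem_image, Finset.mem_univ, true_and] at hu hv
    obtain ⟨_, ⟨a, rfl⟩, rfl⟩ := hu
    obtain ⟨_, ⟨b, rfl⟩, rfl⟩ := hv
    rw [hχ i j a b (fun h => huv (by rw [h]))]
    unfold pat
    split_ifs
    · exact hij.symm
    · rfl
  have hsurj : Function.Surjective χ := Finite.surjective_of_injective hinj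
  intro c c' hcc
  obtain ⟨i, rfl⟩ := hsurj c
  obtain ⟨j, rfl⟩ := hsurj c'
  have hne : i ≠ j := fun h => hcc (by rw [h])
  refine ⟨fun a => ι (zz i j a), hι.comp (hzz i j), ?_, ?_⟩
  · have hmem : (univ : Finset (Fin 4)).image (zz i j) ∈ H0 :=
      Finset.mem_image.2 ⟨(i, j), by simp [hne], rfl⟩
    have := hH0 _ hmem
    rwa [Finset.image_image] at this
  · intro a b hab
    simp only
    rw [hχ i j a b hab]
    unfold pat
    split_ifs <;> rfl

end Pool.Agent.W_MP_721462_co
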